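import Pool.Agent.Helper47.ME.Goals

open MeasureTheory Set Filter Topology
open Pool.Agent.Helper47.AQ Pool.Agent.Helper47.ME

noncomputable section

namespace Pool.Agent.Helper93.ME

lemma mem_hull {σ : Type} [Fintype σ] (v : σ → Fin 2 → ℝ) {p : Fin 2 → ℝ}
    (hp : p ∈ convexHull ℝ (range v)) :
    ∃ w : σ → ℝ, (∀ i, 0 ≤ w i) ∧ ∑ i, w i = 1 ∧ p = ∑ i, w i • v i := by
  classical
  let S : Set (Fin 2 → ℝ) := {p | ∃ w : σ → ℝ, (∀ i, 0 ≤ w i) ∧ ∑ i, w i = 1 ∧ p = ∑ i, w i • v i}
  have hS : Convex ℝ S := by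
    rintro x ⟨w, hw0, hw1, hx⟩ y ⟨w', hw0', hw1', hy⟩ a b ha hb hab
    refine ⟨fun i => a * w i + b * w' i, ?_, ?_, ?_⟩
    · intro i
      have h1 := mul_nonneg ha (hw0 i)
      have h2 := mul_nonneg hb (hw0' i)
      show 0 ≤ a * w i + b * w' i
      linarith
    · rw [Finset.sum_add_distrib, ← Finset.mul_sum, ← Finset.mul_sum, hw1, hw1']
      linarith
    · rw [hx, hy, Finset.smul_sum, Finset.smul_sum, ← Finset.sum_add_distrib]
      refine Finset.sum_congr rfl fun i _ => ?_
      rw [add_smul, mul_smul, mul_smul]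
  have hsub : range v ⊆ S := by
    rintro _ ⟨i, rfl⟩
    refine ⟨fun j => if j = i then 1 else 0, ?_, ?_, ?_⟩
    · intro j
      by_cases h : j = i
      · simp [h]
      · simp [h]
    · simp
    · simp
  exact convexHull_min hsub hS hp

theorem trie : TRIEStmt := by
  classical
  intro T M hT hlev hpp
  obtain ⟨hint, σ, hσ, v, hv, rfl⟩ := hT
  obtain ⟨p, hp, p', hp', hne, hpM, hpM'⟩ := hpp
  -- a sign
  obtain ⟨s, hs, hlev'⟩ : ∃ s : ℝ, s ≠ 0 ∧ ∀ x ∈ convexHull ℝ (range v), s * x 1 ≤ s * M := by
    rcases hlev with h | h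
    · exact ⟨1, one_ne_zero, fun x hx => by have := h x hx; linarith⟩
    · exact ⟨-1, by norm_num, fun x hx => by have := h x hx; linarith⟩
  have hvm : ∀ i, v i ∈ convexHull ℝ (range v) := fun i => subset_convexHull ℝ _ ⟨i, rfl⟩
  -- points on the level M have weights only on the level M
  have key : ∀ q ∈ convexHull ℝ (range v), q 1 = M →
      ∃ w : σ → ℝ, (∀ i, 0 ≤ w i) ∧ ∑ i, w i = 1 ∧ q = ∑ i, w i • v i ∧
        ∀ i, v i 1 ≠ M → w i = 0 := by
    intro q hq hqM
    obtain ⟨w, hw0, hw1, hqw⟩ := mem_hull v hq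
    refine ⟨w, hw0, hw1, hqw, ?_⟩
    have h1 : q 1 = ∑ i, w i * v i 1 := by
      rw [hqw]
      simp [Finset.sum_apply]
    have h2 : ∑ i, w i * (s * M - s * v i 1) = 0 := by
      have : ∑ i, w i * (s * M - s * v i 1) = s * M * ∑ i, w i - s * ∑ i, w i * v i 1 := by
        rw [Finset.mul_sum, Finset.mul_sum, ← Finset.sum_sub_distrib]
        refine Finset.sum_congr rfl fun i _ => ?_
        ring
      rw [this, hw1, ← h1, hqM]
      ring
    have h3 : ∀ i ∈ Finset.univ, 0 ≤ w i * (s * M - s * v i 1) := fun i _ =>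
      mul_nonneg (hw0 i) (by have := hlev' _ (hvm i); linarith)
    intro i hi
    have h4 := (Finset.sum_eq_zero_iff_of_nonneg h3).1 h2 i (Finset.mem_univ i)
    rcases mul_eq_zero.1 h4 with h | h
    · exact h
    · exfalso
      apply hi
      have : s * (M - v i 1) = 0 := by linarith
      rcases mul_eq_zero.1 this with h' | h'
      · exact absurd h' hs
      · linarith
  obtain ⟨w, hw0, hw1, hpw, hwz⟩ := key p hp hpM
  obtain ⟨w', hw0', hw1', hpw', hwz'⟩ := key p' hp' hpM'
  -- one vertex on the level M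
  obtain ⟨i0, hi0⟩ : ∃ i, v i 1 = M := by
    by_contra hcon
    push Not at hcon
    have : ∑ i, w i = 0 := Finset.sum_eq_zero fun i _ => hwz i (hcon i)
    rw [hw1] at this
    exact one_ne_zero this
  -- another one
  obtain ⟨j, hji, hj⟩ : ∃ j, j ≠ i0 ∧ v j 1 = M := by
    by_contra hcon
    push Not at hcon
    apply hne
    have aux : ∀ (u : σ → ℝ), ∑ i, u i = 1 → (∀ i, v i 1 ≠ M → u i = 0) →
        ∑ i, u i • v i = v i0 := by
      intro u hu hz
      have hz' : ∀ i, i ≠ i0 → u i = 0 := fun i hi => hz i (hcon i hi)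
      have h1 : u i0 = 1 := by
        rw [← hu]
        symm
        apply Finset.sum_eq_single i0
        · intro b _ hb
          exact hz' b hb
        · intro h
          exact absurd (Finset.mem_univ _) h
      rw [Finset.sum_eq_single i0]
      · rw [h1, one_smul]
      · intro b _ hb
        rw [hz' b hb, zero_smul]
      · intro h
        exact absurd (Finset.mem_univ _) h
    rw [hpw, hpw', aux w hw1 hwz, aux w' hw1' hwz']
  -- a vertex not on the level M
  obtain ⟨k, hk⟩ : ∃ k, v k 1 ≠ M := by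
    by_contra hcon
    push Not at hcon
    have hsub : convexHull ℝ (range v) ⊆ {x : Fin 2 → ℝ | x 1 = M} := by
      apply convexHull_min
      · rintro _ ⟨i, rfl⟩
        exact hcon i
      · intro x hx y hy a b _ _ hab
        have hx' : x 1 = M := hx
        have hy' : y 1 = M := hy
        show (a • x + b • y) 1 = M
        simp only [Pi.add_apply, Pi.smul_apply, smul_eq_mul]
        rw [hx', hy', ← add_mul, hab, one_mul]
    obtain ⟨z, hz⟩ := hint
    rw [mem_interior_iff_mem_nhds] at hz
    have hcont : Filter.Tendsto (fun t : ℝ => z + t • (![0, 1] : Fin 2 → ℝ)) (𝓝 0) (𝓝 z) := by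
      have h : Continuous (fun t : ℝ => z + t • (![0, 1] : Fin 2 → ℝ)) := by fun_prop
      have h2 := h.tendsto 0
      simpa using h2
    have hev := hcont.eventually hz
    rw [Metric.eventually_nhds_iff] at hev
    obtain ⟨ε, hε, hev⟩ := hev
    have h1 := hsub (hev (y := ε / 2) (by
      rw [Real.dist_eq, sub_zero, abs_of_pos (by linarith)]
      linarith))
    have h2 := hsub (hev (y := 0) (by simpa using hε))
    have h1' : (z + (ε / 2) • (![0, 1] : Fin 2 → ℝ)) 1 = M := h1
    have h2' : (z + (0 : ℝ) • (![0, 1] : Fin 2 → ℝ)) 1 = M := h2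
    simp at h1' h2'
    linarith
  have hcard : Fintype.card σ ≤ 3 := by
    have := hv.card_le_finrank_succ
    have h2 : Module.finrank ℝ (vectorSpan ℝ (range v)) ≤ 2 := by
      have := Submodule.finrank_le (vectorSpan ℝ (range v))
      simpa using this
    omega
  have hik : i0 ≠ k := by
    rintro rfl
    exact hk hi0
  have hjk : j ≠ k := by
    rintro rfl
    exact hk hj
  have h3 : ({i0, j, k} : Finset σ).card = 3 := by
    rw [Finset.card_insert_of_notMem, Finset.card_insert_of_notMem, Finset.card_singleton]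
    · simpa using hjk
    · simp only [Finset.mem_insert, Finset.mem_singleton, not_or]
      exact ⟨hji.symm, hik⟩
  have huniv : ({i0, j, k} : Finset σ) = Finset.univ := by
    apply Finset.eq_univ_of_card
    have := Finset.card_le_univ ({i0, j, k} : Finset σ)
    omega
  have hrange : range v = {v i0, v j, v k} := by
    ext x
    constructor
    · rintro ⟨l, rfl⟩
      have : l ∈ ({i0, j, k} : Finset σ) := by
        rw [huniv]
        exact Finset.mem_univ l
      simp only [Finset.mem_insert, Finset.mem_singleton] at this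
      rcases this with rfl | rfl | rfl <;> simp
    · intro hx
      rcases hx with rfl | rfl | rfl
      · exact ⟨_, rfl⟩
      · exact ⟨_, rfl⟩
      · exact ⟨_, rfl⟩
  have hform : ∀ l, v l = ![v l 0, v l 1] := by
    intro l
    funext t
    fin_cases t <;> rfl
  have h0 : v i0 0 ≠ v j 0 := by
    intro h
    apply hji
    apply hv.injective
    funext t
    fin_cases t
    · exact h.symm
    · show v j 1 = v i0 1
      rw [hi0, hj]
  rcases lt_or_gt_of_ne h0 with hlt | hlt
  · refine ⟨v i0 0, v j 0, v k 0, v k 1, hlt, hk, ?_⟩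
    rw [hrange]
    have e1 : v i0 = ![v i0 0, M] := by rw [← hi0]; exact hform i0
    have e2 : v j = ![v j 0, M] := by rw [← hj]; exact hform j
    rw [← e1, ← e2, ← hform k]
  · refine ⟨v j 0, v i0 0, v k 0, v k 1, hlt, hk, ?_⟩
    rw [hrange]
    have e1 : v i0 = ![v i0 0, M] := by rw [← hi0]; exact hform i0
    have e2 : v j = ![v j 0, M] := by rw [← hj]; exact hform j
    rw [← e1, ← e2, ← hform k, Set.insert_comm]

end Pool.Agent.Helper93.ME
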